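import Pool.Agent.Helper328.UniF

/-!
# A unicellular operator whose spectrum is not a singleton

On every complex separable infinite-dimensional Hilbert space (in particular on `ℓ²(ℕ, ℂ)`, where
it is explicit) there is a bounded operator `A` whose closed invariant subspaces are totally ordered
by inclusion while its spectrum contains both `0` and `1`.

Sketch.  `A x = y` is the linear filter `y 0 = 0`, `y (j+1) = α j * y j + γ j * x j`, strictly lower
triangular with nonzero subdiagonal.  The coefficients are constant on blocks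
(`α = a`, `γ = (1 - a²) / (2 a)`), with a reset at the end of each block.  An energy identity with
storage `4 / (1 - a²) * |y|²` shows that the restriction `R` of `A` to the tail space `M_N`
(`N` a block start) satisfies `‖1 - 2 R‖ ≤ 1 + η_N`, with `η_N` as small as we wish in terms of `N`.
With `s_m = (1/m) ∑_{k<m} (1 - 2 z)^k` the polynomial `z^i (1 - (1 - s_m)^N)` is `z^i` modulo `z^N`
and is small at `R`; hence powers of the `N × N` corner of `A` are approximated extremely well by
polynomials in `A`, and a backward recursion shows that any vector orthogonal to the orbit of `f`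
vanishes on all coordinates from the first nonzero coordinate of `f` on.  Long blocks give
approximate eigenvectors for `1`.
-/

set_option autoImplicit false
open Finset
open scoped ENNReal NNReal

namespace Pool.Agent.Results.MP_546dcb_an.NontrivialSpectrum

open Pool.Agent.Helper328.Uni

theorem exists_m (N : ℕ) : ∃ m : ℕ, 0 < m ∧ (2 : ℝ) ^ N * (3 / (2 * m) * (N * 3 ^ N)) ≤ del N / 2 := by
  have hd : 0 < del N := by unfold del; positivity
  obtain ⟨m, hm⟩ := exists_nat_gt ((2 : ℝ) ^ N * 3 * (N * 3 ^ N) / del N)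
  have hm0 : (0 : ℝ) < m := lt_of_le_of_lt (by positivity) hm
  refine ⟨m, by exact_mod_cast hm0, ?_⟩
  rw [div_lt_iff₀ hd] at hm
  have : (2 : ℝ) ^ N * (3 / (2 * m) * (N * 3 ^ N)) = ((2 : ℝ) ^ N * 3 * (N * 3 ^ N)) / (2 * m) := by
    field_simp
  rw [this, div_le_div_iff₀ (by positivity) (by norm_num)]
  nlinarith

theorem exists_G0 (C d : ℝ) (hd : 0 < d) (m : ℕ) : ∃ g0 : ℕ, ∀ g : ℕ, g0 ≤ g →
    Real.sqrt (1 / (1 - 1 / (g : ℝ)) ^ 2 + 1 / (g : ℝ)) ^ m ≤ 2 ∧ C * (1 / (g : ℝ)) ≤ d := by
  have h0 : Filter.Tendsto (fun g : ℕ => 1 / (g : ℝ)) Filter.atTop (nhds 0) := tendsto_one_div_atTop_nhds_zero_nat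
  have h1 : Filter.Tendsto (fun g : ℕ => Real.sqrt (1 / (1 - 1 / (g : ℝ)) ^ 2 + 1 / (g : ℝ)) ^ m) Filter.atTop
      (nhds (Real.sqrt (1 / (1 - 0) ^ 2 + 0) ^ m)) := by
    apply Filter.Tendsto.pow
    apply (Real.continuous_sqrt.tendsto _).comp
    apply Filter.Tendsto.add _ h0
    apply Filter.Tendsto.div tendsto_const_nhds
    · exact (tendsto_const_nhds.sub h0).pow 2
    · norm_num
  have h2 : Filter.Tendsto (fun g : ℕ => C * (1 / (g : ℝ))) Filter.atTop (nhds (C * 0)) := h0.const_mul _
  rw [mul_zero] at h2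
  have e1 : Real.sqrt (1 / (1 - 0) ^ 2 + 0) ^ m = 1 := by norm_num
  rw [e1] at h1
  have a1 := h1.eventually (eventually_le_nhds (show (1 : ℝ) < 2 by norm_num))
  have a2 := h2.eventually (eventually_le_nhds hd)
  obtain ⟨g0, hg0⟩ := Filter.eventually_atTop.mp (a1.and a2)
  exact ⟨g0, hg0⟩

/-- There is a bounded operator `A` on the complex Hilbert space `ℓ²(ℕ, ℂ)` which is unicellular
(any two closed invariant subspaces are comparable) and whose spectrum contains the two distinct
points `0` and `1`. -/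
theorem result_l2 : ∃ A : lp (fun _ : ℕ => ℂ) 2 →L[ℂ] lp (fun _ : ℕ => ℂ) 2,
    (∀ M N : Submodule ℂ (lp (fun _ : ℕ => ℂ) 2),
      IsClosed (M : Set (lp (fun _ : ℕ => ℂ) 2)) → IsClosed (N : Set (lp (fun _ : ℕ => ℂ) 2)) →
      (∀ x ∈ M, A x ∈ M) → (∀ x ∈ N, A x ∈ N) → M ≤ N ∨ N ≤ M) ∧
    (0 : ℂ) ∈ spectrum ℂ A ∧ (1 : ℂ) ∈ spectrum ℂ A := by
  classical
  choose m hm0 hm1 using exists_m
  choose Cf hCf0 hCf using corner_poly
  have hd : ∀ N, 0 < del N / 2 := fun N => by unfold del; positivity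
  set CN : ℕ → ℝ := fun N => ∑ i ∈ range N, Cf (pP (i + 1) N (m N)) with hCN
  have hCN0 : ∀ N, 0 ≤ CN N := fun N => Finset.sum_nonneg fun i _ => hCf0 _
  choose g0 hg0 using fun N => exists_G0 (CN N) (del N / 2) (hd N) (m N)
  set G : ℕ → ℕ := fun N => N + 2 + ∑ k ∈ range (N + 1), g0 k with hGdef
  have hG : ∀ n, 2 ≤ G n := fun n => by
    have : G n = n + 2 + ∑ k ∈ range (n + 1), g0 k := rfl
    omega
  have hmono : Monotone G := by
    apply monotone_nat_of_le_succ
    intro n
    have e1 : G n = n + 2 + ∑ k ∈ range (n + 1), g0 k := rfl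
    have e2 : G (n + 1) = n + 1 + 2 + (∑ k ∈ range (n + 1), g0 k + g0 (n + 1)) := by
      change n + 1 + 2 + ∑ k ∈ range (n + 1 + 1), g0 k = _
      rw [Finset.sum_range_succ]
    omega
  have hid : ∀ n, n ≤ G n := fun n => by
    have : G n = n + 2 + ∑ k ∈ range (n + 1), g0 k := rfl
    omega
  have hge : ∀ n, g0 n ≤ G n := fun n => by
    have h1 : G n = n + 2 + ∑ k ∈ range (n + 1), g0 k := rfl
    have h2 : g0 n ≤ ∑ k ∈ range (n + 1), g0 k :=
      Finset.single_le_sum (f := g0) (fun k _ => Nat.zero_le _) (Finset.mem_range.mpr (Nat.lt_succ_self n))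
    omega
  have hap : Approx G hG hmono := by
    intro N hN i hi1 hi2
    obtain ⟨j, rfl⟩ : ∃ j, i = j + 1 := ⟨i - 1, by omega⟩
    refine ⟨pP (j + 1) N (m N), fun x => ?_⟩
    obtain ⟨b1, b2⟩ := hg0 N (G N) (hge N)
    have hr : Real.sqrt (rho2 G N) ^ (m N) ≤ 2 := b1
    refine (key_approx hG hmono N (m N) j (hm0 N) hN hr hi2 (Cf (pP (j + 1) N (m N)))
      (hCf (pP (j + 1) N (m N))) x).trans ?_
    apply mul_le_mul_of_nonneg_right _ (norm_nonneg _)
    have h1 : Cf (pP (j + 1) N (m N)) ≤ CN N :=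
      Finset.single_le_sum (f := fun i => Cf (pP (i + 1) N (m N))) (fun i _ => hCf0 _)
        (Finset.mem_range.mpr (by omega))
    have h2 : Cf (pP (j + 1) N (m N)) * (1 / (G N : ℝ)) ≤ CN N * (1 / (G N : ℝ)) :=
      mul_le_mul_of_nonneg_right h1 (by positivity)
    have h3 := hm1 N
    linarith
  exact ⟨TT G hG hmono, chain hG hmono hap, zero_mem_spec hG hmono, one_mem_spec hG hmono hid⟩


/-- An orthonormal set in a separable space is countable. -/
theorem countable_index {H : Type*} [NormedAddCommGroup H] [InnerProductSpace ℂ H]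
    [TopologicalSpace.SeparableSpace H] {ι : Type*} (v : ι → H) (hv : Orthonormal ℂ v) : Countable ι := by
  rw [← Set.countable_univ_iff]
  apply Set.PairwiseDisjoint.countable_of_isOpen (s := fun i => Metric.ball (v i) (1 / 2))
  · intro i _ j _ hij
    rw [Function.onFun, Set.disjoint_left]
    intro x hx hy
    rw [Metric.mem_ball] at hx hy
    have h1 : dist (v i) (v j) < 1 := by
      have := dist_triangle (v i) x (v j)
      rw [dist_comm (v i) x] at this
      linarith
    have h2 : ‖v i - v j‖ ^ 2 = 2 := by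
      rw [@norm_sub_sq ℂ, hv.1 i, hv.1 j, hv.2 hij]
      norm_num
    rw [dist_eq_norm] at h1
    nlinarith [norm_nonneg (v i - v j)]
  · intro i _; exact Metric.isOpen_ball
  · intro i _; exact ⟨v i, Metric.mem_ball_self (by norm_num)⟩

/-- On every complex separable infinite-dimensional Hilbert space `H` there is a bounded operator
`A` which is unicellular (any two closed invariant subspaces are comparable) and whose spectrum
contains the two distinct points `0` and `1`. -/
theorem result {H : Type*} [NormedAddCommGroup H] [InnerProductSpace ℂ H] [CompleteSpace H]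
    [TopologicalSpace.SeparableSpace H] (hH : ¬ FiniteDimensional ℂ H) :
    ∃ A : H →L[ℂ] H,
      (∀ M N : Submodule ℂ H, IsClosed (M : Set H) → IsClosed (N : Set H) →
        (∀ x ∈ M, A x ∈ M) → (∀ x ∈ N, A x ∈ N) → M ≤ N ∨ N ≤ M) ∧
      (0 : ℂ) ∈ spectrum ℂ A ∧ (1 : ℂ) ∈ spectrum ℂ A := by
  -- an orthonormal basis indexed by the natural numbers
  obtain ⟨w, b, -⟩ := exists_hilbertBasis ℂ H
  have hc : Countable w := countable_index b b.orthonormal
  have hinf : Infinite w := by
    by_contra hfin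
    rw [not_infinite_iff_finite] at hfin
    have : Fintype w := Fintype.ofFinite w
    exact hH (Module.Basis.finiteDimensional_of_finite b.toOrthonormalBasis.toBasis)
  obtain ⟨hden⟩ := nonempty_denumerable w
  let eq : ℕ ≃ w := (Denumerable.eqv w).symm
  have hv : Orthonormal ℂ (fun n => b (eq n)) := b.orthonormal.comp _ eq.injective
  have hsp : ⊤ ≤ (Submodule.span ℂ (Set.range fun n => b (eq n))).topologicalClosure := by
    have h1 : (Set.range fun n => b (eq n)) = Set.range b := by
      rw [show (fun n => b (eq n)) = b ∘ eq from rfl, eq.surjective.range_comp]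
    rw [h1, b.dense_span]
  let B : HilbertBasis ℕ ℂ H := HilbertBasis.mk hv hsp
  let e : H ≃L[ℂ] lp (fun _ : ℕ => ℂ) 2 := B.repr.toContinuousLinearEquiv
  obtain ⟨A, hA, h0, h1⟩ := result_l2
  let Φ := e.symm.conjContinuousAlgEquiv
  have hΦ : ∀ x : H, Φ A x = e.symm (A (e x)) := fun x => rfl
  have hspec : spectrum ℂ (Φ A) = spectrum ℂ A := AlgEquiv.spectrum_eq Φ.toAlgEquiv A
  refine ⟨Φ A, ?_, by rw [hspec]; exact h0, by rw [hspec]; exact h1⟩
  intro M N hM hN hMi hNi
  -- transport a closed invariant subspace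
  have key : ∀ K : Submodule ℂ H, IsClosed (K : Set H) → (∀ x ∈ K, Φ A x ∈ K) →
      IsClosed ((K.comap (e.symm : lp (fun _ : ℕ => ℂ) 2 →ₗ[ℂ] H) : Submodule ℂ _) : Set (lp (fun _ : ℕ => ℂ) 2)) ∧
      (∀ x ∈ K.comap (e.symm : lp (fun _ : ℕ => ℂ) 2 →ₗ[ℂ] H), A x ∈ K.comap (e.symm : lp (fun _ : ℕ => ℂ) 2 →ₗ[ℂ] H)) := by
    intro K hK hKi
    constructor
    · exact hK.preimage e.symm.continuous
    · intro x hx
      have h2 := hKi (e.symm x) hx
      rw [hΦ, e.apply_symm_apply] at h2
      exact h2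
  obtain ⟨k1, k2⟩ := key M hM hMi
  obtain ⟨k3, k4⟩ := key N hN hNi
  rcases hA _ _ k1 k3 k2 k4 with h | h
  · left
    intro x hx
    have h2 : e x ∈ M.comap (e.symm : lp (fun _ : ℕ => ℂ) 2 →ₗ[ℂ] H) := by
      change e.symm (e x) ∈ M
      rw [e.symm_apply_apply]; exact hx
    have h3 := h h2
    change e.symm (e x) ∈ N at h3
    rw [e.symm_apply_apply] at h3; exact h3
  · right
    intro x hx
    have h2 : e x ∈ N.comap (e.symm : lp (fun _ : ℕ => ℂ) 2 →ₗ[ℂ] H) := by
      change e.symm (e x) ∈ N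
      rw [e.symm_apply_apply]; exact hx
    have h3 := h h2
    change e.symm (e x) ∈ M at h3
    rw [e.symm_apply_apply] at h3; exact h3

end Pool.Agent.Results.MP_546dcb_an.NontrivialSpectrum
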